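import Pool.Agent.H824.SaC

set_option autoImplicit false

/-!
# The map `(z₀^d - c (z₁^(b+1) z₂^b)^d, z₁^d, z₂^d, …)`: no conjugation

`d = p + 2`, `b = q + 1`.
-/

namespace Pool.Agent.Y563.SA

open Filter Topology Pool.Agent.H824.Sa

/-- The map. -/
noncomputable def F (m p q : ℕ) (c : ℂ) (z : Fin (m + 3) → ℂ) : Fin (m + 3) → ℂ :=
  fun i => z i ^ (p + 2) - if i = 0 then c * (z 1 ^ (q + 2) * z 2 ^ (q + 1)) ^ (p + 2) else 0

/-- Its leading term. -/
noncomputable def Q (m p : ℕ) : Fin (m + 3) → MvPolynomial (Fin (m + 3)) ℂ :=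
  fun i => MvPolynomial.X i ^ (p + 2)

variable (m p q : ℕ) (c : ℂ)

theorem polyMap_Q (z : Fin (m + 3) → ℂ) (i : Fin (m + 3)) :
    polyMap (Q m p) z i = z i ^ (p + 2) := by
  simp [polyMap, Q]

theorem F_zero (z : Fin (m + 3) → ℂ) :
    F m p q c z 0 = z 0 ^ (p + 2) - c * (z 1 ^ (q + 2) * z 2 ^ (q + 1)) ^ (p + 2) := by
  simp [F]

theorem F_ne (z : Fin (m + 3) → ℂ) {i : Fin (m + 3)} (hi : i ≠ 0) :
    F m p q c z i = z i ^ (p + 2) := by
  simp [F, hi]

theorem mix (x y : ℂ) : (x ^ (q + 2) * y ^ (q + 1)) ^ (p + 2) =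
    (x ^ (p + 2)) ^ (q + 2) * (y ^ (p + 2)) ^ (q + 1) := by
  rw [mul_pow, ← pow_mul, ← pow_mul, ← pow_mul, ← pow_mul, mul_comm (q + 2), mul_comm (q + 1)]

theorem F_eq_iff (a b : Fin (m + 3) → ℂ) :
    F m p q c a = F m p q c b ↔ ∀ i, a i ^ (p + 2) = b i ^ (p + 2) := by
  constructor
  · intro h
    have h1 : ∀ i, i ≠ 0 → a i ^ (p + 2) = b i ^ (p + 2) := by
      intro i hi
      have := congrFun h i
      rwa [F_ne m p q c a hi, F_ne m p q c b hi] at this
    intro i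
    by_cases hi : i = 0
    · subst hi
      have h0 := congrFun h 0
      rw [F_zero, F_zero, mix, mix, h1 1 (one_ne m), h1 2 (two_ne m)] at h0
      linear_combination h0
    · exact h1 i hi
  · intro h
    funext i
    by_cases hi : i = 0
    · subst hi
      rw [F_zero, F_zero, mix, mix, h 1, h 2, h 0]
    · rw [F_ne m p q c a hi, F_ne m p q c b hi, h i]

theorem Q_eq_iff (a b : Fin (m + 3) → ℂ) :
    polyMap (Q m p) a = polyMap (Q m p) b ↔ ∀ i, a i ^ (p + 2) = b i ^ (p + 2) := by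
  constructor
  · intro h i
    have := congrFun h i
    rwa [polyMap_Q, polyMap_Q] at this
  · intro h
    funext i
    rw [polyMap_Q, polyMap_Q, h i]

/-- one variable: away from zero the power determines the number locally -/
theorem loc_inj_one (x : ℂ) (hx : x ≠ 0) :
    ∃ N ∈ 𝓝 x, ∀ a ∈ N, ∀ b ∈ N, a ^ (p + 2) = b ^ (p + 2) → a = b := by
  let g : ℂ × ℂ → ℂ := fun u => ∑ i ∈ Finset.range (p + 2), u.1 ^ i * u.2 ^ (p + 2 - 1 - i)
  have hg : Continuous g := by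
    apply continuous_finset_sum
    intro i _
    fun_prop
  have hgx : g (x, x) ≠ 0 := by
    have h1 : g (x, x) = ((p + 2 : ℕ) : ℂ) * x ^ (p + 1) := by
      simp only [g]
      rw [Finset.sum_congr rfl (g := fun _ => x ^ (p + 1)), Finset.sum_const, Finset.card_range,
        nsmul_eq_mul]
      intro i hi
      rw [Finset.mem_range] at hi
      rw [← pow_add]
      congr 1
      omega
    rw [h1]
    exact mul_ne_zero (by exact_mod_cast (by omega : p + 2 ≠ 0)) (pow_ne_zero _ hx)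
  have hmem : {u : ℂ × ℂ | g u ≠ 0} ∈ 𝓝 x ×ˢ 𝓝 x := by
    rw [← nhds_prod_eq]
    exact hg.continuousAt.eventually_ne hgx
  obtain ⟨N, hN, hNN⟩ := mem_prod_self_iff.1 hmem
  refine ⟨N, hN, fun a ha b hb hab => ?_⟩
  have h2 : g (a, b) ≠ 0 := hNN (Set.mk_mem_prod ha hb)
  have h3 : g (a, b) * (a - b) = a ^ (p + 2) - b ^ (p + 2) :=
    (Commute.all a b).geom_sum₂_mul (p + 2)
  rw [hab, sub_self] at h3
  rcases mul_eq_zero.1 h3 with h4 | h4
  · exact absurd h4 h2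
  · exact sub_eq_zero.1 h4

/-- Where no coordinate vanishes, the powers determine the point locally. -/
theorem loc_inj {n : ℕ} (z : Fin n → ℂ) (hz : ∀ i, z i ≠ 0) :
    ∃ N ∈ 𝓝 z, ∀ a ∈ N, ∀ b ∈ N, (∀ i, a i ^ (p + 2) = b i ^ (p + 2)) → a = b := by
  choose N hN h using fun i => loc_inj_one p (z i) (hz i)
  refine ⟨Set.pi Set.univ N, set_pi_mem_nhds Set.finite_univ (fun i _ => hN i), ?_⟩
  intro a ha b hb hab
  funext i
  exact h i _ (ha i (Set.mem_univ i)) _ (hb i (Set.mem_univ i)) (hab i)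

/-- Where a coordinate vanishes, they do not. -/
theorem not_loc_inj {n : ℕ} (z : Fin n → ℂ) (i : Fin n) (hi : z i = 0) (V : Set (Fin n → ℂ))
    (hV : V ∈ 𝓝 z) :
    ∃ a ∈ V, ∃ b ∈ V, (∀ j, a j ^ (p + 2) = b j ^ (p + 2)) ∧ a ≠ b := by
  obtain ⟨ζ, hζ⟩ : ∃ ζ : ℂ, IsPrimitiveRoot ζ (p + 2) :=
    ⟨_, Complex.isPrimitiveRoot_exp (p + 2) (by omega)⟩
  have hζ1 : ζ ≠ 1 := hζ.ne_one (by omega)
  have h1 : Tendsto (fun ε : ℂ => Function.update z i ε) (𝓝 0) (𝓝 z) := by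
    have hc : Continuous (fun ε : ℂ => Function.update z i ε) := by
      exact continuous_const.update i continuous_id
    have := hc.tendsto (z i)
    rw [Function.update_eq_self, hi] at this
    exact this
  have h2 : Tendsto (fun ε : ℂ => Function.update z i (ζ * ε)) (𝓝 0) (𝓝 z) := by
    have : Tendsto (fun ε : ℂ => ζ * ε) (𝓝 (0 : ℂ)) (𝓝 0) := by
      have := (continuous_const_mul ζ).tendsto (0 : ℂ)
      simpa using this
    exact h1.comp this
  have h3 : ∀ᶠ ε : ℂ in 𝓝 0, Function.update z i ε ∈ V ∧ Function.update z i (ζ * ε) ∈ V :=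
    (h1.eventually hV).and (h2.eventually hV)
  obtain ⟨ε, hε, hne⟩ := ((h3.filter_mono nhdsWithin_le_nhds).and
    (eventually_mem_nhdsWithin (a := (0 : ℂ)) (s := {0}ᶜ))).exists
  refine ⟨_, hε.1, _, hε.2, ?_, ?_⟩
  · intro j
    by_cases hj : j = i
    · subst hj
      rw [Function.update_self, Function.update_self, mul_pow, hζ.pow_eq_one, one_mul]
    · simp [Function.update_of_ne hj]
  · intro h
    have := congrFun h i
    simp only [Function.update_self] at this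
    apply hζ1
    have h5 : (ζ - 1) * ε = 0 := by linear_combination -this
    rcases mul_eq_zero.1 h5 with h6 | h6
    · exact sub_eq_zero.1 h6
    · exact absurd h6 hne

theorem not_conj_aux {n : ℕ} (f g : (Fin n → ℂ) → (Fin n → ℂ))
    (hf : ∀ a b, f a = f b ↔ ∀ i, a i ^ (p + 2) = b i ^ (p + 2))
    (hg : ∀ a b, g a = g b ↔ ∀ i, a i ^ (p + 2) = b i ^ (p + 2))
    (φ : OpenPartialHomeomorph (Fin n → ℂ) (Fin n → ℂ)) (S : Set (Fin n → ℂ)) (hS : IsOpen S)
    (hSs : ∀ z ∈ S, z ∈ φ.source) (hSf : ∀ z ∈ S, f z ∈ φ.source)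
    (hc : ∀ z ∈ S, φ (f z) = g (φ z)) (u : Fin n → ℂ) (hu : u ∈ S) :
    (∃ i, u i = 0) ↔ ∃ i, φ u i = 0 := by
  constructor
  · rintro ⟨i, hi⟩
    by_contra hcon
    push Not at hcon
    obtain ⟨N, hN, hNi⟩ := loc_inj p (φ u) hcon
    have hV : S ∩ φ ⁻¹' N ∈ 𝓝 u :=
      inter_mem (hS.mem_nhds hu) ((φ.continuousAt (hSs u hu)) hN)
    obtain ⟨a, ha, b, hb, hab, hne⟩ := not_loc_inj p u i hi _ hV
    have h1 : f a = f b := (hf a b).2 hab
    have h2 : g (φ a) = g (φ b) := by rw [← hc a ha.1, ← hc b hb.1, h1]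
    have h3 := hNi _ ha.2 _ hb.2 ((hg _ _).1 h2)
    exact hne (φ.injOn (hSs a ha.1) (hSs b hb.1) h3)
  · rintro ⟨i, hi⟩
    by_contra hcon
    push Not at hcon
    obtain ⟨N, hN, hNi⟩ := loc_inj p u hcon
    have hV : φ '' (S ∩ N) ∈ 𝓝 (φ u) :=
      φ.image_mem_nhds (hSs u hu) (inter_mem (hS.mem_nhds hu) hN)
    obtain ⟨a, ⟨a', ha', rfl⟩, b, ⟨b', hb', rfl⟩, hab, hne⟩ := not_loc_inj p (φ u) i hi _ hV
    have h1 : g (φ a') = g (φ b') := (hg _ _).2 hab
    rw [← hc a' ha'.1, ← hc b' hb'.1] at h1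
    have h2 := φ.injOn (hSf a' ha'.1) (hSf b' hb'.1) h1
    have h3 := hNi _ ha'.2 _ hb'.2 ((hf _ _).1 h2)
    exact hne (by rw [h3])

theorem continuous_F : Continuous (F m p q c) := by
  refine continuous_pi fun i => ?_
  by_cases hi : i = 0
  · subst hi
    have : (fun z : Fin (m + 3) → ℂ => F m p q c z 0) =
        fun z => z 0 ^ (p + 2) - c * (z 1 ^ (q + 2) * z 2 ^ (q + 1)) ^ (p + 2) := by
      funext z; exact F_zero m p q c z
    rw [this]
    fun_prop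
  · have : (fun z : Fin (m + 3) → ℂ => F m p q c z i) = fun z => z i ^ (p + 2) := by
      funext z; exact F_ne m p q c z hi
    rw [this]
    fun_prop

theorem F_at_zero : F m p q c 0 = 0 := by
  funext i
  by_cases hi : i = 0
  · subst hi
    rw [F_zero]; simp
  · rw [F_ne m p q c _ hi]; simp

theorem not_conj (hc0 : c ≠ 0) : ¬ IsTopConj (F m p q c) (polyMap (Q m p)) := by
  rintro ⟨φ, h0, hφ0, hc⟩
  have hF : Tendsto (F m p q c) (𝓝 0) (𝓝 0) := by
    have := (continuous_F m p q c).tendsto 0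
    rwa [F_at_zero] at this
  have hsrc : φ.source ∈ 𝓝 (0 : Fin (m + 3) → ℂ) := φ.open_source.mem_nhds h0
  have hall : ∀ᶠ z in 𝓝 (0 : Fin (m + 3) → ℂ),
      z ∈ φ.source ∧ F m p q c z ∈ φ.source ∧ φ (F m p q c z) = polyMap (Q m p) (φ z) := by
    filter_upwards [hsrc, hF.eventually hsrc, hc] with z h1 h2 h3 using ⟨h1, h2, h3⟩
  obtain ⟨S, hS, hSo, hS0⟩ := eventually_nhds_iff.1 hall
  have key := not_conj_aux p (F m p q c) (polyMap (Q m p)) (F_eq_iff m p q c) (Q_eq_iff m p) φ S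
    hSo (fun z hz => (hS z hz).1) (fun z hz => (hS z hz).2.1) (fun z hz => (hS z hz).2.2)
  -- the points `(0, t, t, …)`
  have hw : Tendsto (fun t : ℂ => fun i : Fin (m + 3) => if i = 0 then (0 : ℂ) else t) (𝓝 0)
      (𝓝 0) := by
    rw [tendsto_pi_nhds]
    intro i
    by_cases hi : i = 0
    · simp [hi]
    · simp only [hi, if_false]
      exact tendsto_id
  have hSn : S ∈ 𝓝 (0 : Fin (m + 3) → ℂ) := hSo.mem_nhds hS0
  obtain ⟨t, ht, htne⟩ := (((hw.eventually hSn).and ((hF.comp hw).eventually hSn)).filter_mono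
    nhdsWithin_le_nhds |>.and (eventually_mem_nhdsWithin (a := (0 : ℂ)) (s := {0}ᶜ))).exists
  set w : Fin (m + 3) → ℂ := fun i => if i = 0 then (0 : ℂ) else t with hwdef
  have hw1 : w ∈ S := ht.1
  have hw2 : F m p q c w ∈ S := ht.2
  have ht0 : t ≠ 0 := htne
  obtain ⟨i, hi⟩ := (key w hw1).1 ⟨0, by simp [hwdef]⟩
  have h2 : φ (F m p q c w) i = 0 := by
    rw [(hS w hw1).2.2, polyMap_Q, hi]
    simp
  obtain ⟨j, hj⟩ := (key (F m p q c w) hw2).2 ⟨i, h2⟩
  by_cases hj0 : j = 0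
  · subst hj0
    rw [F_zero] at hj
    simp [hwdef, one_ne m, two_ne m, ht0, hc0] at hj
  · rw [F_ne m p q c w hj0] at hj
    simp [hwdef, hj0, ht0] at hj

end Pool.Agent.Y563.SA
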