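import Pool.Agent.Y563.SA.A

set_option autoImplicit false

/-!
# The derivative and the critical set; the leading term and the order of contact
-/

namespace Pool.Agent.Y563.SA

open Filter Topology Pool.Agent.H824.Sa

variable (m p q : ℕ) (c : ℂ)

/-- The derivative of the perturbation. -/
noncomputable def dG (z : Fin (m + 3) → ℂ) : (Fin (m + 3) → ℂ) →L[ℂ] ℂ :=
  (c * ((p + 2 : ℂ) * (z 1 ^ (q + 2) * z 2 ^ (q + 1)) ^ (p + 1))) •
    ((z 1 ^ (q + 2) * ((q + 1 : ℂ) * z 2 ^ q)) •
        ContinuousLinearMap.proj (R := ℂ) (φ := fun _ => ℂ) (2 : Fin (m + 3)) +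
      (z 2 ^ (q + 1) * ((q + 2 : ℂ) * z 1 ^ (q + 1))) •
        ContinuousLinearMap.proj (R := ℂ) (φ := fun _ => ℂ) (1 : Fin (m + 3)))

/-- The derivative of the component `i` of `F`. -/
noncomputable def dF (z : Fin (m + 3) → ℂ) (i : Fin (m + 3)) :
    (Fin (m + 3) → ℂ) →L[ℂ] ℂ :=
  ((p + 2 : ℂ) * z i ^ (p + 1)) •
      ContinuousLinearMap.proj (R := ℂ) (φ := fun _ => ℂ) i -
    if i = 0 then dG m p q c z else 0

theorem hasFDerivAt_F (z : Fin (m + 3) → ℂ) :
    HasFDerivAt (F m p q c) (ContinuousLinearMap.pi (dF m p q c z)) z := by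
  rw [hasFDerivAt_pi]
  intro i
  have hi0 : HasFDerivAt (fun z : Fin (m + 3) → ℂ => z i ^ (p + 2))
      (((p + 2 : ℂ) * z i ^ (p + 1)) •
        ContinuousLinearMap.proj (R := ℂ) (φ := fun _ => ℂ) i) z := by
    have h0 : HasFDerivAt (fun z : Fin (m + 3) → ℂ => z i)
        (ContinuousLinearMap.proj (R := ℂ) (φ := fun _ => ℂ) i) z :=
      hasFDerivAt_apply i z
    refine (h0.pow (p + 2)).congr_fderiv ?_
    ext v
    simp
  by_cases hi : i = 0
  · subst hi
    have e : (fun z : Fin (m + 3) → ℂ => F m p q c z 0) =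
        fun z => z 0 ^ (p + 2) - c * (z 1 ^ (q + 2) * z 2 ^ (q + 1)) ^ (p + 2) := by
      funext z; exact F_zero m p q c z
    rw [e]
    have h1 : HasFDerivAt (fun z : Fin (m + 3) → ℂ => z 1)
        (ContinuousLinearMap.proj (R := ℂ) (φ := fun _ => ℂ) (1 : Fin (m + 3))) z :=
      hasFDerivAt_apply 1 z
    have h2 : HasFDerivAt (fun z : Fin (m + 3) → ℂ => z 2)
        (ContinuousLinearMap.proj (R := ℂ) (φ := fun _ => ℂ) (2 : Fin (m + 3))) z :=
      hasFDerivAt_apply 2 z
    have hg : HasFDerivAt (fun z : Fin (m + 3) → ℂ =>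
        c * (z 1 ^ (q + 2) * z 2 ^ (q + 1)) ^ (p + 2)) (dG m p q c z) z := by
      refine ((((h1.pow (q + 2)).mul (h2.pow (q + 1))).pow (p + 2)).const_mul c).congr_fderiv ?_
      ext v
      simp [dG]
      ring
    refine (hi0.sub hg).congr_fderiv ?_
    simp only [dF, if_true]
  · have e : (fun z : Fin (m + 3) → ℂ => F m p q c z i) = fun z => z i ^ (p + 2) := by
      funext z; exact F_ne m p q c z hi
    rw [e]
    refine hi0.congr_fderiv ?_
    simp only [dF, hi, if_false, sub_zero]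

theorem dG_single (z : Fin (m + 3) → ℂ) : dG m p q c z (Pi.single 0 1) = 0 := by
  simp [dG, one_ne, two_ne]

theorem det_F (z : Fin (m + 3) → ℂ) :
    (fderiv ℂ (F m p q c) z).det = ∏ i, ((p + 2 : ℂ) * z i ^ (p + 1)) := by
  rw [(hasFDerivAt_F m p q c z).fderiv]
  rw [ContinuousLinearMap.det, ← LinearMap.det_toMatrix', Matrix.det_of_isUpperTriangular]
  · refine Finset.prod_congr rfl fun i _ => ?_
    rw [LinearMap.toMatrix'_apply]
    by_cases hi : i = 0
    · subst hi
      have h := dG_single m p q c z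
      simp [dF, h]
    · simp [dF, hi]
  · intro i j hij
    have hij' : j < i := hij
    have hi : i ≠ 0 := by
      rintro rfl
      exact absurd hij' (Fin.not_lt_zero j)
    rw [LinearMap.toMatrix'_apply]
    simp [dF, hi, hij'.ne']

theorem mem_crit (z : Fin (m + 3) → ℂ) : z ∈ crit (F m p q c) ↔ ∃ i, z i = 0 := by
  have hp : (p + 2 : ℂ) ≠ 0 := by exact_mod_cast (by omega : p + 2 ≠ 0)
  show (fderiv ℂ (F m p q c) z).det = 0 ↔ _
  rw [det_F, Finset.prod_eq_zero_iff]
  simp [hp]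

theorem analyticAt_F : AnalyticAt ℂ (F m p q c) 0 := by
  rw [analyticAt_pi_iff]
  have h : ∀ j : Fin (m + 3), AnalyticAt ℂ (fun z : Fin (m + 3) → ℂ => z j) 0 := fun j =>
    (ContinuousLinearMap.proj (R := ℂ) (φ := fun _ => ℂ) j).analyticAt 0
  intro i
  by_cases hi : i = 0
  · subst hi
    have e : (fun z : Fin (m + 3) → ℂ => F m p q c z 0) =
        fun z => z 0 ^ (p + 2) - c * (z 1 ^ (q + 2) * z 2 ^ (q + 1)) ^ (p + 2) := by
      funext z; exact F_zero m p q c z
    rw [e]
    exact ((h 0).pow (p + 2)).sub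
      (analyticAt_const.mul ((((h 1).pow (q + 2)).mul ((h 2).pow (q + 1))).pow (p + 2)))
  · have e : (fun z : Fin (m + 3) → ℂ => F m p q c z i) = fun z => z i ^ (p + 2) := by
      funext z; exact F_ne m p q c z hi
    rw [e]
    exact (h i).pow (p + 2)

theorem isSuperattracting_F : IsSuperattracting (F m p q c) := by
  refine ⟨analyticAt_F m p q c, F_at_zero m p q c, ?_⟩
  rw [(hasFDerivAt_F m p q c 0).fderiv]
  ext v i
  by_cases hi : i = 0
  · simp [dF, hi, dG]
  · simp [dF, hi]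

theorem isNonDegenerate_Q : IsNonDegenerate (Q m p) := by
  intro z
  constructor
  · intro h
    funext i
    have := congrFun h i
    rw [polyMap_Q] at this
    simpa using this
  · rintro rfl
    funext i
    rw [polyMap_Q]
    simp

/-- the order of contact of the map with its leading term -/
theorem contact (k : ℕ) (hk : k ≤ (2 * q + 3) * (p + 2)) :
    (fun z => F m p q c z - polyMap (Q m p) z) =O[𝓝 0]
      (fun z : Fin (m + 3) → ℂ => ‖z‖ ^ k) := by
  refine Asymptotics.IsBigO.of_bound ‖c‖ ?_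
  have h1 : ∀ᶠ z : Fin (m + 3) → ℂ in 𝓝 0, ‖z‖ < 1 := by
    have hc : Continuous (fun z : Fin (m + 3) → ℂ => ‖z‖) := continuous_norm
    have h0 : (fun z : Fin (m + 3) → ℂ => ‖z‖) 0 < 1 := by simp
    exact hc.continuousAt.eventually (gt_mem_nhds h0)
  filter_upwards [h1] with z hz
  rw [norm_pow, norm_norm]
  rw [pi_norm_le_iff_of_nonneg (by positivity)]
  intro i
  have h6 : ‖z‖ ^ ((2 * q + 3) * (p + 2)) ≤ ‖z‖ ^ k :=
    pow_le_pow_of_le_one (norm_nonneg _) hz.le hk
  by_cases hi : i = 0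
  · subst hi
    have e : (F m p q c z - polyMap (Q m p) z) 0 =
        -(c * (z 1 ^ (q + 2) * z 2 ^ (q + 1)) ^ (p + 2)) := by
      rw [Pi.sub_apply, F_zero, polyMap_Q]
      ring
    rw [e, norm_neg, norm_mul, norm_pow, norm_mul, norm_pow, norm_pow]
    refine mul_le_mul_of_nonneg_left (le_trans ?_ h6) (norm_nonneg c)
    calc (‖z 1‖ ^ (q + 2) * ‖z 2‖ ^ (q + 1)) ^ (p + 2)
        ≤ (‖z‖ ^ (q + 2) * ‖z‖ ^ (q + 1)) ^ (p + 2) := by
          gcongr
          · exact norm_le_pi_norm z 1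
          · exact norm_le_pi_norm z 2
      _ = ‖z‖ ^ ((2 * q + 3) * (p + 2)) := by
          rw [← pow_add, ← pow_mul]
          congr 1
          ring
  · have e : (F m p q c z - polyMap (Q m p) z) i = 0 := by
      rw [Pi.sub_apply, F_ne m p q c z hi, polyMap_Q]
      ring
    rw [e, norm_zero]
    positivity

theorem isLeadingTerm_F : IsLeadingTerm (F m p q c) (p + 2) (Q m p) := by
  refine ⟨fun i => ?_, ?_, contact m p q c _ ?_⟩
  · have := (MvPolynomial.isHomogeneous_X ℂ i).pow (p + 2)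
    simpa [Q] using this
  · intro h
    have := congrFun h 0
    simp [Q] at this
  · nlinarith

end Pool.Agent.Y563.SA
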