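import Pool.Agent.Y563.SA.B

set_option autoImplicit false

/-!
# The postcritical set is a topological cone
-/

namespace Pool.Agent.Y563.SA

open Filter Topology ComplexConjugate Pool.Agent.H824.Sa

theorem expo (N : ℕ) : (1 : ℝ) - (N : ℝ) / (N + 1) = 1 / (N + 1) := by
  field_simp
  ring

theorem norm_inv_pow (N : ℕ) (x : ℂ) :
    ‖(‖x‖ ^ (-((N : ℝ) / (N + 1)))) • x‖ = ‖x‖ ^ ((1 : ℝ) / (N + 1)) := by
  have hN : (0 : ℝ) < (1 : ℝ) / (N + 1) := by positivity
  by_cases hx : x = 0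
  · subst hx
    rw [smul_zero, norm_zero, Real.zero_rpow hN.ne']
  · have hr : 0 < ‖x‖ := norm_pos_iff.2 hx
    rw [norm_smul, Real.norm_of_nonneg (Real.rpow_nonneg hr.le _)]
    nth_rewrite 2 [← Real.rpow_one ‖x‖]
    rw [← Real.rpow_add hr, ← expo N]
    congr 1
    ring

/-- The homeomorphism `x ↦ |x|^N x` of `ℂ`. -/
noncomputable def powHomeo (N : ℕ) : ℂ ≃ₜ ℂ where
  toFun x := (‖x‖ ^ N) • x
  invFun x := (‖x‖ ^ (-((N : ℝ) / (N + 1)))) • x
  left_inv x := by
    by_cases hx : x = 0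
    · subst hx
      simp
    · have hr : 0 < ‖x‖ := norm_pos_iff.2 hx
      have e1 : ‖(‖x‖ ^ N) • x‖ = ‖x‖ ^ (((N + 1 : ℕ) : ℝ)) := by
        rw [norm_smul, Real.norm_of_nonneg (by positivity), Real.rpow_natCast]
        ring
      show (‖(‖x‖ ^ N) • x‖ ^ (-((N : ℝ) / (N + 1)))) • ((‖x‖ ^ N) • x) = x
      rw [e1, ← Real.rpow_mul hr.le, smul_smul]
      have e2 : ‖x‖ ^ (((N + 1 : ℕ) : ℝ) * -((N : ℝ) / (N + 1))) * ‖x‖ ^ N = 1 := by
        have e3 : ((N + 1 : ℕ) : ℝ) * -((N : ℝ) / (N + 1)) = -((N : ℕ) : ℝ) := by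
          push_cast
          field_simp
        rw [e3, Real.rpow_neg hr.le, Real.rpow_natCast]
        exact inv_mul_cancel₀ (by positivity)
      rw [e2, one_smul]
  right_inv x := by
    by_cases hx : x = 0
    · subst hx
      simp
    · have hr : 0 < ‖x‖ := norm_pos_iff.2 hx
      show (‖(‖x‖ ^ (-((N : ℝ) / (N + 1)))) • x‖ ^ N) •
        ((‖x‖ ^ (-((N : ℝ) / (N + 1)))) • x) = x
      rw [norm_inv_pow, smul_smul, ← Real.rpow_natCast, ← Real.rpow_mul hr.le,
        ← Real.rpow_add hr]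
      have e3 : (1 : ℝ) / (N + 1) * (N : ℝ) + -((N : ℝ) / (N + 1)) = 0 := by
        ring
      rw [e3, Real.rpow_zero, one_smul]
  continuous_toFun := by fun_prop
  continuous_invFun := by
    rw [continuous_iff_continuousAt]
    intro x
    by_cases hx : x = 0
    · subst hx
      have hN : (0 : ℝ) < (1 : ℝ) / (N + 1) := by positivity
      have h0 : Tendsto (fun y : ℂ => ‖(‖y‖ ^ (-((N : ℝ) / (N + 1)))) • y‖) (𝓝 0) (𝓝 0) := by
        have e : (fun y : ℂ => ‖(‖y‖ ^ (-((N : ℝ) / (N + 1)))) • y‖) =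
            fun y => ‖y‖ ^ ((1 : ℝ) / (N + 1)) := by
          funext y; exact norm_inv_pow N y
        rw [e]
        have hc : Continuous (fun y : ℂ => ‖y‖ ^ ((1 : ℝ) / (N + 1))) :=
          continuous_norm.rpow_const (fun _ => Or.inr hN.le)
        have := hc.tendsto 0
        rwa [norm_zero, Real.zero_rpow hN.ne'] at this
      have h1 := tendsto_zero_iff_norm_tendsto_zero.2 h0
      show Tendsto _ _ _
      simpa using h1
    · have hr : ‖x‖ ≠ 0 := norm_ne_zero_iff.2 hx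
      exact (continuous_norm.continuousAt.rpow_const (Or.inl hr)).smul continuousAt_id

variable (m p q : ℕ) (c : ℂ)

/-- The homeomorphism in the coordinate `i`. -/
noncomputable def coordH (i : Fin (m + 3)) : ℂ ≃ₜ ℂ :=
  if i = 0 then powHomeo (2 * (q + 1)) else if i = 2 then conjHomeo else Homeomorph.refl ℂ

theorem coordH_zero (x : ℂ) : coordH m q 0 x = (‖x‖ ^ (2 * (q + 1))) • x := by
  simp only [coordH, if_true]
  rfl

theorem coordH_one (x : ℂ) : coordH m q 1 x = x := by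
  simp [coordH, one_ne m, (two_ne_one m).symm]

theorem coordH_two (x : ℂ) : coordH m q 2 x = conj x := by
  simp only [coordH, two_ne m, if_false, if_true]
  rfl

theorem coordH_eq_zero (i : Fin (m + 3)) (x : ℂ) : coordH m q i x = 0 ↔ x = 0 := by
  by_cases h0 : i = 0
  · subst h0
    rw [coordH_zero, smul_eq_zero]
    constructor
    · rintro (h | h)
      · exact norm_eq_zero.1 (pow_eq_zero_iff (by omega) |>.1 h)
      · exact h
    · intro h
      exact Or.inr h
  · by_cases h2 : i = 2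
    · subst h2
      rw [coordH_two]
      simp
    · simp [coordH, h0, h2]

/-- The homeomorphism `(z₀, z₁, z₂, …) ↦ (|z₀|^(2b) z₀, z₁, conj z₂, …)`. -/
noncomputable def psiN : (Fin (m + 3) → ℂ) ≃ₜ (Fin (m + 3) → ℂ) :=
  Homeomorph.piCongrRight (coordH m q)

theorem psiN_apply (z : Fin (m + 3) → ℂ) (i : Fin (m + 3)) :
    psiN m q z i = coordH m q i (z i) := rfl

theorem psiN_zero : psiN m q 0 = 0 := by
  funext i
  rw [psiN_apply]
  exact (coordH_eq_zero m q i _).2 rfl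

/-- The postcritical set. -/
def PCN : Set (Fin (m + 3) → ℂ) :=
  {y | (∃ i, y i = 0) ∨ y 0 = -(c * (y 1 ^ (q + 2) * y 2 ^ (q + 1)))}

/-- The standard cone. -/
def coneN : Set (Fin (m + 3) → ℂ) :=
  {z | (∃ i, z i = 0) ∨
    (‖z 0‖ ^ (2 * (q + 1))) • z 0 = -(c * (z 1 ^ (q + 2) * conj (z 2) ^ (q + 1)))}

theorem mem_coneN (z : Fin (m + 3) → ℂ) : z ∈ coneN m q c ↔ psiN m q z ∈ PCN m q c := by
  show ((∃ i, z i = 0) ∨
      (‖z 0‖ ^ (2 * (q + 1))) • z 0 = -(c * (z 1 ^ (q + 2) * conj (z 2) ^ (q + 1)))) ↔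
    ((∃ i, psiN m q z i = 0) ∨
      psiN m q z 0 = -(c * (psiN m q z 1 ^ (q + 2) * psiN m q z 2 ^ (q + 1))))
  simp only [psiN_apply, coordH_eq_zero, coordH_zero, coordH_one, coordH_two]

theorem isStandardCone_coneN : IsStandardCone (coneN m q c) := by
  rintro a z (⟨i, hi⟩ | h)
  · exact Or.inl ⟨i, by simp [hi]⟩
  · refine Or.inr ?_
    simp only [Pi.smul_apply, smul_eq_mul, map_mul, norm_mul]
    have e : ((‖z 0‖ : ℂ) ^ (2 * (q + 1))) * z 0 =
        -(c * (z 1 ^ (q + 2) * conj (z 2) ^ (q + 1))) := by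
      rw [← h, Complex.real_smul]
      push_cast
      ring
    rw [Complex.real_smul]
    push_cast
    have ha : (‖a‖ : ℂ) ^ 2 = a * conj a := by
      rw [Complex.mul_conj, Complex.normSq_eq_norm_sq]
      push_cast
      ring
    have ha' : (‖a‖ : ℂ) ^ (2 * (q + 1)) = a ^ (q + 1) * conj a ^ (q + 1) := by
      rw [pow_mul, ha, mul_pow]
    calc ((‖a‖ : ℂ) * ‖z 0‖) ^ (2 * (q + 1)) * (a * z 0)
        = (‖a‖ : ℂ) ^ (2 * (q + 1)) * a * ((‖z 0‖ : ℂ) ^ (2 * (q + 1)) * z 0) := by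
          rw [mul_pow]
          ring
      _ = -(c * ((a * z 1) ^ (q + 2) * (conj a * conj (z 2)) ^ (q + 1))) := by
          rw [e, ha', mul_pow, mul_pow, pow_succ a (q + 1)]
          ring

theorem F_mem_PCN (hc : (-c) ^ (p + 2) = c) (y : Fin (m + 3) → ℂ) (hy : y ∈ PCN m q c) :
    F m p q c y ∈ PCN m q c := by
  rcases hy with ⟨i, hi⟩ | h
  · by_cases h0 : i = 0
    · subst h0
      refine Or.inr ?_
      rw [F_zero, F_ne m p q c y (one_ne m), F_ne m p q c y (two_ne m), hi, mix]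
      simp
    · refine Or.inl ⟨i, ?_⟩
      rw [F_ne m p q c y h0, hi]
      simp
  · refine Or.inl ⟨0, ?_⟩
    have h1 : y 0 ^ (p + 2) = c * (y 1 ^ (q + 2) * y 2 ^ (q + 1)) ^ (p + 2) := by
      rw [h, ← neg_mul, mul_pow, hc]
    rw [F_zero, h1, sub_self]

theorem postcrit_subset (hc : (-c) ^ (p + 2) = c) (U : Set (Fin (m + 3) → ℂ))
    (y : Fin (m + 3) → ℂ) (hy : y ∈ postcrit (F m p q c) U) : y ∈ PCN m q c := by
  obtain ⟨k, w, hw, -, rfl⟩ := hy
  have h0 : w ∈ PCN m q c := Or.inl ((mem_crit m p q c w).1 hw)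
  clear hw
  induction k with
  | zero => exact h0
  | succ k ih =>
    rw [Function.iterate_succ_apply']
    exact F_mem_PCN m p q c hc _ ih

theorem exists_small (U : Set (Fin (m + 3) → ℂ)) (hU : U ∈ 𝓝 0) :
    ∀ᶠ y in 𝓝 (0 : Fin (m + 3) → ℂ), y ∈ PCN m q c → y ∈ postcrit (F m p q c) U := by
  obtain ⟨r, hr, hrU⟩ := Metric.mem_nhds_iff.1 hU
  have h1 : Metric.ball (0 : Fin (m + 3) → ℂ) (r ^ (p + 2)) ∈ 𝓝 (0 : Fin (m + 3) → ℂ) :=
    Metric.ball_mem_nhds _ (by positivity)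
  filter_upwards [h1, hU] with y hy1 hyU hyP
  rcases hyP with hi | h
  · refine ⟨0, y, (mem_crit m p q c y).2 hi, ?_, rfl⟩
    intro j hj
    obtain rfl : j = 0 := by omega
    exact hyU
  · choose s hs using fun x : ℂ => IsAlgClosed.exists_pow_nat_eq x (n := p + 2) (by omega)
    set w : Fin (m + 3) → ℂ := fun i => if i = 0 then 0 else s (y i) with hwdef
    have hw0 : w 0 = 0 := by simp [hwdef]
    have hwi : ∀ i, i ≠ 0 → w i ^ (p + 2) = y i := by
      intro i hi
      simp only [hwdef, hi, if_false]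
      exact hs (y i)
    have hFw : F m p q c w = y := by
      funext i
      by_cases hi : i = 0
      · subst hi
        rw [F_zero, hw0, h, mix, hwi 1 (one_ne m), hwi 2 (two_ne m)]
        simp
      · rw [F_ne m p q c w hi, hwi i hi]
    have hwU : w ∈ U := by
      apply hrU
      rw [mem_ball_zero_iff] at hy1 ⊢
      rw [pi_norm_lt_iff hr]
      intro i
      by_cases hi : i = 0
      · subst hi
        rw [hw0, norm_zero]
        exact hr
      · have h2 : ‖w i‖ ^ (p + 2) < r ^ (p + 2) := by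
          rw [← norm_pow, hwi i hi]
          exact lt_of_le_of_lt (norm_le_pi_norm y i) hy1
        exact lt_of_pow_lt_pow_left₀ (p + 2) hr.le h2
    refine ⟨1, w, (mem_crit m p q c w).2 ⟨0, hw0⟩, ?_, by simpa using hFw⟩
    intro j hj
    interval_cases j
    · exact hwU
    · simpa [hFw] using hyU

theorem isTopologicalCone_F (hc : (-c) ^ (p + 2) = c) : IsTopologicalCone (F m p q c) := by
  refine ⟨coneN m q c, isStandardCone_coneN m q c, (psiN m q).toOpenPartialHomeomorph,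
    Set.mem_univ _, psiN_zero m q, ?_⟩
  intro U hU
  have ht : Tendsto (psiN m q) (𝓝 0) (𝓝 0) := by
    have := (psiN m q).continuous.tendsto 0
    rwa [psiN_zero] at this
  filter_upwards [ht.eventually (exists_small m p q c U hU)] with z hz
  rw [mem_coneN]
  exact ⟨hz, postcrit_subset m p q c hc U _⟩

/-- a constant with `(-c)^d = c` -/
theorem exists_c : ∃ c : ℂ, c ≠ 0 ∧ (-c) ^ (p + 2) = c := by
  obtain ⟨u, hu⟩ := IsAlgClosed.exists_pow_nat_eq ((-1 : ℂ)) (n := p + 1) (by omega)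
  have hu0 : u ≠ 0 := by
    rintro rfl
    rw [zero_pow (by omega)] at hu
    norm_num at hu
  refine ⟨-u, neg_ne_zero.2 hu0, ?_⟩
  rw [neg_neg, pow_succ, hu]
  ring

end Pool.Agent.Y563.SA
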